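import Pool.Agent.MP72200a.Theta

/-!
# MP_72200a_co, Q1: the asymptotic number of regular Boolean matrices

`r_n ∼ ∑_{k=0}^n C(n,k)² k! 4^{k(n-k)}`, and in closed form
`r_n ∼ 2^{n²/2+2n+1} (π n)^{-1/2} (n/(2e))^{n/2} ∑_{k ∈ ℤ} (n/2)^{k-n/2} 4^{-(k-n/2)²}`.
-/

namespace Pool.Agent.Results.MP_72200a_co.RegularCountAsymptotics

open Pool.Agent.MP72200a Filter Topology

/-- The asymptotic behaviour of the number `r_n` of regular `n × n` Boolean matrices: `r_n` is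
asymptotically equivalent to the finite sum `∑_{k=0}^n C(n,k)² k! 4^{k(n-k)}`, that is, to
`2^{n²/2+2n+1} (π n)^{-1/2} (n/(2e))^{n/2} ∑_{k ∈ ℤ} (n/2)^{k-n/2} 4^{-(k-n/2)²}`. -/
theorem result :
    Tendsto (fun n : ℕ => (regCount n : ℝ) /
      ∑ k ∈ Finset.range (n + 1), (n.choose k : ℝ) ^ 2 * (k.factorial : ℝ) * 4 ^ (k * (n - k)))
      atTop (𝓝 1) ∧
    Tendsto (fun n : ℕ => (regCount n : ℝ) /
      ((2 : ℝ) ^ ((n : ℝ) ^ 2 / 2 + 2 * n + 1) / √(Real.pi * n) *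
        ((n : ℝ) / (2 * Real.exp 1)) ^ ((n : ℝ) / 2) *
        ∑' k : ℤ, ((n : ℝ) / 2) ^ ((k : ℝ) - n / 2) * (4 : ℝ) ^ (-((k : ℝ) - n / 2) ^ 2)))
      atTop (𝓝 1) := by
  constructor
  · have h := tendsto_ratio
    simp only [asymp_eq, Tk] at h
    exact h
  · exact tendsto_closedForm

end Pool.Agent.Results.MP_72200a_co.RegularCountAsymptotics
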